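import Mathlib

set_option autoImplicit false

open Finset

namespace Pool.Agent.P.MP_985e29_pr

variable {V : Type*} [DecidableEq V]

/-- Weight of the closed set `C` inside `S` when `v` is closed with probability `q v`. -/
def wt (S : Finset V) (q : V → ℝ) (C : Finset V) : ℝ :=
  (∏ v ∈ C, q v) * ∏ v ∈ S \ C, (1 - q v)

/-- Expectation over independent closings of the sites of `S`. -/
def Ex (S : Finset V) (q : V → ℝ) (f : Finset V → ℝ) : ℝ := ∑ C ∈ S.powerset, wt S q C * f C

lemma wt_nonneg {S : Finset V} {q : V → ℝ} (h0 : ∀ v, 0 ≤ q v) (h1 : ∀ v, q v ≤ 1)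
    (C : Finset V) : 0 ≤ wt S q C :=
  mul_nonneg (prod_nonneg fun v _ => h0 v) (prod_nonneg fun v _ => by linarith [h1 v])

lemma Ex_insert {S : Finset V} {a : V} (ha : a ∉ S) (q : V → ℝ) (f : Finset V → ℝ) :
    Ex (insert a S) q f = (1 - q a) * Ex S q f + q a * Ex S q (fun C => f (insert a C)) := by
  unfold Ex
  rw [sum_powerset_insert ha, mul_sum, mul_sum]
  congr 1
  · refine sum_congr rfl fun C hC => ?_
    have hC' : a ∉ C := fun h => ha (mem_powerset.mp hC h)
    unfold wt
    rw [insert_sdiff_of_notMem _ hC', prod_insert (fun h => ha (mem_sdiff.mp h).1)]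
    ring
  · refine sum_congr rfl fun C hC => ?_
    have hC' : a ∉ C := fun h => ha (mem_powerset.mp hC h)
    unfold wt
    rw [prod_insert hC', insert_sdiff_insert, sdiff_insert_of_notMem ha]
    ring

lemma Ex_congr {S : Finset V} {q : V → ℝ} {f g : Finset V → ℝ} (h : ∀ C ⊆ S, f C = g C) :
    Ex S q f = Ex S q g :=
  sum_congr rfl fun C hC => by rw [h C (mem_powerset.mp hC)]

lemma Ex_congr_q {S : Finset V} {q r : V → ℝ} (h : ∀ v ∈ S, q v = r v) (f : Finset V → ℝ) :
    Ex S q f = Ex S r f := by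
  refine sum_congr rfl fun C hC => ?_
  unfold wt
  have h1 : ∏ v ∈ C, q v = ∏ v ∈ C, r v :=
    prod_congr rfl (fun v hv => h v (mem_powerset.mp hC hv))
  have h2 : ∏ v ∈ S \ C, (1 - q v) = ∏ v ∈ S \ C, (1 - r v) :=
    prod_congr rfl (fun v hv => by rw [h v (mem_sdiff.mp hv).1])
  rw [h1, h2]

lemma Ex_const (S : Finset V) (q : V → ℝ) (c : ℝ) : Ex S q (fun _ => c) = c := by
  unfold Ex wt
  rw [← sum_mul, ← prod_add]
  simp

lemma Ex_sub (S : Finset V) (q : V → ℝ) (f g : Finset V → ℝ) :
    Ex S q (fun C => f C - g C) = Ex S q f - Ex S q g := by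
  unfold Ex
  rw [← sum_sub_distrib]
  exact sum_congr rfl fun C _ => by ring

lemma Ex_const_mul (S : Finset V) (q : V → ℝ) (c : ℝ) (f : Finset V → ℝ) :
    Ex S q (fun C => c * f C) = c * Ex S q f := by
  unfold Ex
  rw [mul_sum]
  exact sum_congr rfl fun C _ => by ring

lemma Ex_mono {S : Finset V} {q : V → ℝ} (h0 : ∀ v, 0 ≤ q v) (h1 : ∀ v, q v ≤ 1)
    {f g : Finset V → ℝ} (h : ∀ C ⊆ S, f C ≤ g C) : Ex S q f ≤ Ex S q g :=
  sum_le_sum fun C hC => mul_le_mul_of_nonneg_left (h C (mem_powerset.mp hC)) (wt_nonneg h0 h1 C)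

/-- Sites on which `f` does not depend can be dropped. -/
lemma Ex_local {T : Finset V} (q : V → ℝ) {f : Finset V → ℝ} (hf : ∀ C, f C = f (C ∩ T))
    {S : Finset V} (hS : T ⊆ S) : Ex S q f = Ex T q f := by
  obtain ⟨U, hU, rfl⟩ : ∃ U : Finset V, Disjoint U T ∧ S = U ∪ T :=
    ⟨S \ T, sdiff_disjoint, (sdiff_union_of_subset hS).symm⟩
  clear hS
  induction U using Finset.induction_on with
  | empty => simp
  | insert a U ha ih =>
    rw [disjoint_insert_left] at hU
    rw [insert_union, Ex_insert (by simp [ha, hU.1])]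
    have : (fun C => f (insert a C)) = f := by
      ext C
      rw [hf, insert_inter_of_notMem hU.1, ← hf]
    rw [this, ih hU.2]
    ring

/-- Changing the closing probability at one site. -/
lemma Ex_one_site {S : Finset V} {a : V} (ha : a ∈ S) {q r : V → ℝ} (h : ∀ v, v ≠ a → q v = r v)
    (f : Finset V → ℝ) :
    Ex S r f - Ex S q f = (q a - r a) * Ex S q (fun C => f (C.erase a) - f (insert a C)) := by
  obtain ⟨T, haT, rfl⟩ : ∃ T : Finset V, a ∉ T ∧ S = insert a T :=
    ⟨S.erase a, notMem_erase a S, (insert_erase ha).symm⟩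
  have hq : ∀ g, Ex T r g = Ex T q g := fun g =>
    Ex_congr_q (fun v hv => (h v (fun e => haT (e ▸ hv))).symm) g
  rw [Ex_insert haT, Ex_insert haT, Ex_insert haT, hq, hq]
  have h1 : Ex T q (fun C => f (C.erase a) - f (insert a C)) =
      Ex T q f - Ex T q (fun C => f (insert a C)) := by
    rw [← Ex_sub]
    exact Ex_congr fun C hC => by rw [erase_eq_of_notMem (fun e => haT (hC e))]
  have h2 : Ex T q (fun C => f ((insert a C).erase a) - f (insert a (insert a C))) =
      Ex T q f - Ex T q (fun C => f (insert a C)) := by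
    rw [← Ex_sub]
    exact Ex_congr fun C hC => by rw [erase_insert (fun e => haT (hC e)), insert_idem]
  rw [h1, h2]
  ring

/-- Telescoping over the sites of `T`. -/
lemma Ex_telescope {S : Finset V} {q q' : V → ℝ} (f : Finset V → ℝ) (b : V → ℝ) {T : Finset V}
    (hT : T ⊆ S)
    (hb : ∀ r : V → ℝ, (∀ u, r u = q u ∨ (u ∈ T ∧ r u = q' u)) → ∀ v ∈ T,
      b v ≤ (q v - q' v) * Ex S r (fun C => f (C.erase v) - f (insert v C))) :
    ∑ v ∈ T, b v ≤ Ex S (fun u => if u ∈ T then q' u else q u) f - Ex S q f := by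
  suffices h : ∀ U ⊆ T, ∑ v ∈ U, b v ≤ Ex S (fun u => if u ∈ U then q' u else q u) f - Ex S q f from
    h T Subset.rfl
  intro U hU
  induction U using Finset.induction_on with
  | empty => simp
  | insert a U ha ih =>
    have haT : a ∈ T := hU (mem_insert_self a U)
    have hUT : U ⊆ T := (subset_insert a U).trans hU
    have h1 := Ex_one_site (hT haT) (q := fun u => if u ∈ U then q' u else q u)
      (r := fun u => if u ∈ insert a U then q' u else q u) (fun v hv => by simp [hv]) f
    have h2 := hb (fun u => if u ∈ U then q' u else q u) (fun u => by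
      by_cases hu : u ∈ U
      · right; exact ⟨hUT hu, by simp [hu]⟩
      · left; simp [hu]) a haT
    simp only [ha, if_false, mem_insert_self, if_true] at h1
    rw [sum_insert ha]
    have := ih hUT
    linarith

/-- Change of measure by Cauchy-Schwarz. -/
lemma Ex_sq_le {S : Finset V} {q r : V → ℝ} (h0 : ∀ v, 0 < q v) (h1 : ∀ v, q v < 1)
    {f : Finset V → ℝ} (hf : ∀ C, f C = 0 ∨ f C = 1) :
    Ex S r f ^ 2 ≤ Ex S q f * ∏ v ∈ S, (1 + (r v - q v) ^ 2 / (q v * (1 - q v))) := by
  have hw : ∀ C, 0 < wt S q C := fun C =>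
    mul_pos (prod_pos fun v _ => h0 v) (prod_pos fun v _ => by linarith [h1 v])
  have h2 : ∏ v ∈ S, (1 + (r v - q v) ^ 2 / (q v * (1 - q v))) =
      ∑ C ∈ S.powerset, wt S r C ^ 2 / wt S q C := by
    have : ∀ v ∈ S, 1 + (r v - q v) ^ 2 / (q v * (1 - q v)) =
        r v ^ 2 / q v + (1 - r v) ^ 2 / (1 - q v) := by
      intro v _
      have := (h0 v).ne'
      have : 1 - q v ≠ 0 := by linarith [h1 v]
      field_simp
      ring
    rw [prod_congr rfl this, prod_add]
    refine sum_congr rfl fun C _ => ?_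
    unfold wt
    rw [prod_div_distrib, prod_div_distrib, prod_pow, prod_pow, mul_pow, div_mul_div_comm]
  rw [h2]
  unfold Ex
  refine sum_sq_le_sum_mul_sum_of_sq_le_mul _ (fun C _ => ?_) (fun C _ => ?_)
    (fun C _ => le_of_eq ?_)
  · rcases hf C with h | h <;> rw [h] <;> linarith [hw C]
  · exact div_nonneg (sq_nonneg _) (hw C).le
  · have := (hw C).ne'
    rcases hf C with h | h <;> rw [h]
    · simp
    · field_simp

lemma Ex_image (φ : V → V) (hφ : Function.Injective φ) (S : Finset V) (p : ℝ)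
    (f : Finset V → ℝ) :
    Ex (S.image φ) (fun _ => p) f = Ex S (fun _ => p) (fun C => f (C.image φ)) := by
  induction S using Finset.induction_on generalizing f with
  | empty => simp [Ex]
  | insert a S ha ih =>
    rw [image_insert, Ex_insert (by simpa [hφ.eq_iff] using ha), Ex_insert ha, ih, ih]
    simp only [image_insert]

open MeasureTheory ProbabilityTheory unitInterval in
lemma setBer_cyl (p : I) (S C : Finset V) (hC : C ⊆ S) :
    setBer((Set.univ : Set V), p) {X | ∀ v ∈ S, v ∈ X ↔ v ∈ C} =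
      ENNReal.ofReal (wt S (fun _ => (p : ℝ)) C) := by
  classical
  rw [setBernoulli_apply']
  have h1 : (fun p : V → Prop ↦ {i | p i}) ⁻¹' {X | ∀ v ∈ S, v ∈ X ↔ v ∈ C} =
      Set.pi (S : Set V) (fun v => {(v ∈ C : Prop)}) := by
    ext x
    simp
  rw [h1, Measure.infinitePi_pi _ (fun _ _ => MeasurableSet.of_discrete)]
  unfold wt
  rw [← sdiff_union_of_subset hC, prod_union sdiff_disjoint, sdiff_union_of_subset hC,
    ENNReal.ofReal_mul (prod_nonneg fun _ _ => p.2.1), mul_comm,
    ENNReal.ofReal_prod_of_nonneg (fun _ _ => p.2.1),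
    ENNReal.ofReal_prod_of_nonneg (fun _ _ => by linarith [p.2.2])]
  congr 1
  · refine prod_congr rfl fun v hv => ?_
    have : ENNReal.ofReal (p : ℝ) = toNNReal p := by
      rw [← ENNReal.ofReal_coe_nnreal]; rfl
    simp [hv, this]
  · refine prod_congr rfl fun v hv => ?_
    have : ENNReal.ofReal (1 - (p : ℝ)) = toNNReal (σ p) := by
      rw [← ENNReal.ofReal_coe_nnreal]; rfl
    rw [this]
    simp [(mem_sdiff.mp hv).2]

open MeasureTheory ProbabilityTheory unitInterval Classical in
/-- Upper bound for the probability of an event contained in a local event. -/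
lemma setBer_le_Ex (p : I) (S : Finset V) (A : Finset V → Prop) (E : Set (Set V))
    (hE : ∀ X ∈ E, A (S.filter (· ∈ X))) :
    setBer((Set.univ : Set V), p) E ≤
      ENNReal.ofReal (Ex S (fun _ => (p : ℝ)) (fun C => if A C then 1 else 0)) := by
  have h1 : E ⊆ ⋃ C ∈ S.powerset.filter A, {X | ∀ v ∈ S, v ∈ X ↔ v ∈ C} := by
    intro X hX
    simp only [Set.mem_iUnion]
    exact ⟨S.filter (· ∈ X), mem_filter.mpr ⟨mem_powerset.mpr (filter_subset _ _), hE X hX⟩,
      fun v hv => by simp [hv]⟩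
  refine (measure_mono h1).trans ((measure_biUnion_finset_le _ _).trans (le_of_eq ?_))
  rw [sum_congr rfl fun C hC => setBer_cyl p S C (mem_powerset.mp (mem_filter.mp hC).1),
    ← ENNReal.ofReal_sum_of_nonneg (fun C _ => wt_nonneg (fun _ => p.2.1) (fun _ => p.2.2) C)]
  congr 1
  unfold Ex
  rw [sum_filter]
  exact sum_congr rfl fun C _ => by by_cases h : A C <;> simp [h]

end Pool.Agent.P.MP_985e29_pr
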