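import Pool.Agent.P.MP_985e29_pr.Match
import Pool.Agent.P.MP_985e29_pr.Ex

set_option autoImplicit false
set_option linter.unusedSectionVars false

open Finset

namespace Pool.Agent.P.MP_985e29_pr

variable {V : Type} [DecidableEq V] (G : SimpleGraph V) [G.LocallyFinite]

open Classical in
/-- `W` together with the neighbours of its `P`-vertices. -/
noncomputable def reg (W : Finset V) (P : V → Prop) : Finset V :=
  W ∪ (W.filter P).biUnion (fun v => G.neighborFinset v)

/-- `W` together with all its neighbours. -/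
def supp (W : Finset V) : Finset V := W ∪ W.biUnion (fun v => G.neighborFinset v)

/-- The finite-volume version of a draw at `v`, in the window `W`, closed set `C`. -/
def Drawish (χ : V → Prop) (W : Finset V) (v : V) (C : Finset V) : Prop :=
  ess G (reg G W (fun u => χ u ↔ χ v) \ C.erase v) v ∧
    ¬ ess G (reg G W (fun u => ¬ (χ u ↔ χ v)) \ C.erase v) v

open Classical in
/-- Indicator of `Drawish`. -/
noncomputable def dind (χ : V → Prop) (W : Finset V) (v : V) (C : Finset V) : ℝ :=
  if Drawish G χ W v C then 1 else 0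

/-- Probability of `Drawish`. -/
noncomputable def theta (χ : V → Prop) (o : V) (p : ℝ) (U : Finset V) : ℝ :=
  Ex (supp G U) (fun _ => p) (dind G χ U o)

variable {G}

lemma mem_reg {W : Finset V} {P : V → Prop} {x : V} :
    x ∈ reg G W P ↔ x ∈ W ∨ ∃ u ∈ W, P u ∧ G.Adj u x := by
  classical
  simp [reg, and_assoc]

lemma mem_supp {W : Finset V} {x : V} : x ∈ supp G W ↔ x ∈ W ∨ ∃ u ∈ W, G.Adj u x := by
  simp [supp]

lemma subset_reg (W : Finset V) (P : V → Prop) : W ⊆ reg G W P := fun _ h => mem_reg.mpr (Or.inl h)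

lemma subset_supp (W : Finset V) : W ⊆ supp G W := fun _ h => mem_supp.mpr (Or.inl h)

lemma reg_subset_supp (W : Finset V) (P : V → Prop) : reg G W P ⊆ supp G W := by
  intro x hx
  rw [mem_reg] at hx
  rw [mem_supp]
  grind

lemma reg_mono {W W' : Finset V} (h : W ⊆ W') (P : V → Prop) : reg G W P ⊆ reg G W' P := by
  intro x hx
  rw [mem_reg] at hx ⊢
  grind

lemma supp_mono {W W' : Finset V} (h : W ⊆ W') : supp G W ⊆ supp G W' := by
  intro x hx
  rw [mem_supp] at hx ⊢
  grind

lemma reg_congr (W : Finset V) {P Q : V → Prop} (h : ∀ u, P u ↔ Q u) : reg G W P = reg G W Q := by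
  ext x
  simp only [mem_reg, h]

lemma reg_closed {P : V → Prop} (hP : ∀ a b, G.Adj a b → (P a ↔ ¬ P b)) {W : Finset V} {u w : V}
    (hu : u ∈ reg G W P) (hPu : P u) (hadj : G.Adj u w) : w ∈ reg G W P := by
  rw [mem_reg] at hu ⊢
  rcases hu with hu | ⟨x, -, hx, hxu⟩
  · exact Or.inr ⟨u, hu, hPu, hadj⟩
  · exact absurd hPu ((hP x u hxu).mp hx)

variable {χ : V → Prop}

lemma same_proper (hχ : ∀ a b, G.Adj a b → (χ a ↔ ¬ χ b)) (v : V) :
    ∀ a b, G.Adj a b → ((χ a ↔ χ v) ↔ ¬ (χ b ↔ χ v)) := by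
  intro a b h
  have := hχ a b h
  tauto

lemma opp_proper (hχ : ∀ a b, G.Adj a b → (χ a ↔ ¬ χ b)) (v : V) :
    ∀ a b, G.Adj a b → (¬ (χ a ↔ χ v) ↔ ¬ ¬ (χ b ↔ χ v)) := by
  intro a b h
  have := hχ a b h
  tauto

lemma ess_reg {P : V → Prop} (hP : ∀ a b, G.Adj a b → (P a ↔ ¬ P b)) {W R D : Finset V}
    (hR : reg G W P ⊆ R) {x : V} (hx : x ∈ W) (hxD : x ∉ D) :
    (¬ P x → ess G (reg G W P \ D) x → ess G (R \ D) x) ∧
      (P x → ess G (R \ D) x → ess G (reg G W P \ D) x) :=
  ess_mono hP (sdiff_subset_sdiff hR Subset.rfl)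
    (fun _ hu hPu _ hw hadj => mem_sdiff.mpr
      ⟨reg_closed hP (mem_sdiff.mp hu).1 hPu hadj, (mem_sdiff.mp hw).2⟩)
    (mem_sdiff.mpr ⟨subset_reg W P hx, hxD⟩)

lemma drawish_mono (hχ : ∀ a b, G.Adj a b → (χ a ↔ ¬ χ b)) {W W' : Finset V} (h : W ⊆ W') {v : V}
    (hv : v ∈ W) {C : Finset V} (hD : Drawish G χ W' v C) : Drawish G χ W v C :=
  ⟨(ess_reg (same_proper hχ v) (reg_mono h _) hv (notMem_erase v C)).2 Iff.rfl hD.1,
    fun he => hD.2 ((ess_reg (opp_proper hχ v) (reg_mono h _) hv (notMem_erase v C)).1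
      (by simp) he)⟩

lemma ess_opp_same (hχ : ∀ a b, G.Adj a b → (χ a ↔ ¬ χ b)) {W D : Finset V} {v : V}
    (hv : v ∈ W) (hD : v ∉ D) (he : ess G (reg G W (fun u => ¬ (χ u ↔ χ v)) \ D) v) :
    ess G (reg G W (fun u => χ u ↔ χ v) \ D) v :=
  (ess_reg (same_proper hχ v) (reg_subset_supp W _) hv hD).2 Iff.rfl
    ((ess_reg (opp_proper hχ v) (reg_subset_supp W _) hv hD).1 (by simp) he)

lemma dind_cases (W : Finset V) (v : V) (C : Finset V) :
    dind G χ W v C = 0 ∨ dind G χ W v C = 1 := by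
  unfold dind
  split_ifs <;> simp

lemma dind_mono (hχ : ∀ a b, G.Adj a b → (χ a ↔ ¬ χ b)) {W W' : Finset V} (h : W ⊆ W') {v : V}
    (hv : v ∈ W) (C : Finset V) : dind G χ W' v C ≤ dind G χ W v C := by
  unfold dind
  by_cases h1 : Drawish G χ W' v C
  · simp [h1, drawish_mono hχ h hv h1]
  · simp only [h1, if_false]
    split_ifs <;> simp

lemma dind_local (W : Finset V) (v : V) (C : Finset V) :
    dind G χ W v C = dind G χ W v (C ∩ supp G W) := by
  have : ∀ P, reg G W P \ (C ∩ supp G W).erase v = reg G W P \ C.erase v := by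
    intro P
    ext x
    have := @reg_subset_supp _ _ G _ W P x
    simp only [mem_sdiff, mem_erase, mem_inter]
    tauto
  unfold dind Drawish
  rw [this, this]

lemma reg_image (φ : G ≃g G) (W : Finset V) {P Q : V → Prop} (h : ∀ u, Q (φ u) ↔ P u) :
    reg G (W.image φ) Q = (reg G W P).image φ := by
  ext x
  obtain ⟨y, rfl⟩ := φ.surjective x
  rw [φ.injective.mem_finset_image]
  simp only [mem_reg, φ.injective.mem_finset_image, mem_image, exists_exists_and_eq_and, h,
    φ.map_adj_iff]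

lemma supp_image (φ : G ≃g G) (W : Finset V) : supp G (W.image φ) = (supp G W).image φ := by
  ext x
  obtain ⟨y, rfl⟩ := φ.surjective x
  rw [φ.injective.mem_finset_image]
  simp only [mem_supp, φ.injective.mem_finset_image, mem_image, exists_exists_and_eq_and,
    φ.map_adj_iff]

lemma dind_image (φ : G ≃g G) {o : V} (h : ∀ w, (χ (φ w) ↔ χ (φ o)) ↔ (χ w ↔ χ o))
    (U C : Finset V) : dind G χ (U.image φ) (φ o) (C.image φ) = dind G χ U o C := by
  unfold dind Drawish
  rw [reg_image φ U (P := fun u => χ u ↔ χ o) h,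
    reg_image φ U (P := fun u => ¬ (χ u ↔ χ o)) (fun u => not_congr (h u)),
    ← image_erase φ.injective, ← image_sdiff _ _ φ.injective, ← image_sdiff _ _ φ.injective,
    ess_image, ess_image]

lemma Ex_dind_image (φ : G ≃g G) {o : V} (h : ∀ w, (χ (φ w) ↔ χ (φ o)) ↔ (χ w ↔ χ o))
    (p : ℝ) (U : Finset V) {S : Finset V} (hS : supp G (U.image φ) ⊆ S) :
    Ex S (fun _ => p) (dind G χ (U.image φ) (φ o)) = theta G χ o p U := by
  rw [Ex_local _ (dind_local _ _) hS, supp_image, Ex_image φ φ.injective]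
  simp only [dind_image φ h]
  rfl

/-- A local event is insensitive to a small tilt. -/
lemma Ex_lip {T : Finset V} {p s : ℝ} {r : V → ℝ} (hp0 : 0 ≤ p) (hp1 : p ≤ 1) (hr0 : ∀ u, 0 ≤ r u)
    (hr1 : ∀ u, r u ≤ 1) (hr : ∀ u, |r u - p| ≤ s) {f : Finset V → ℝ}
    (hf : ∀ C, f C = 0 ∨ f C = 1) : Ex T (fun _ => p) f - s * T.card ≤ Ex T r f := by
  have h := Ex_telescope (S := T) (q := fun _ => p) (q' := r) f (fun _ => -s) Subset.rfl
    (fun r' hr' v _ => by
      have h0 : ∀ u, 0 ≤ r' u := fun u => by rcases hr' u with h | ⟨-, h⟩ <;> simp [h, hp0, hr0]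
      have h1 : ∀ u, r' u ≤ 1 := fun u => by rcases hr' u with h | ⟨-, h⟩ <;> simp [h, hp1, hr1]
      have h2 : Ex T r' (fun C => f (C.erase v) - f (insert v C)) ≤ 1 := by
        refine (Ex_mono h0 h1 (g := fun _ => 1) fun C _ => ?_).trans (Ex_const _ _ _).le
        rcases hf (C.erase v) with h | h <;> rcases hf (insert v C) with h' | h' <;> simp [h, h']
      have h3 : -1 ≤ Ex T r' (fun C => f (C.erase v) - f (insert v C)) := by
        refine (Ex_const T r' _).ge.trans (Ex_mono h0 h1 (f := fun _ => -1) fun C _ => ?_)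
        rcases hf (C.erase v) with h | h <;> rcases hf (insert v C) with h' | h' <;> simp [h, h']
      have h4 := abs_le.mp (hr v)
      nlinarith)
  rw [Ex_congr_q (r := r) (fun v hv => by simp [hv])] at h
  simp only [sum_const, nsmul_eq_mul] at h
  linarith

/-- Difference of maximum matching sizes under the two boundary conditions. -/
noncomputable def FF (G : SimpleGraph V) [G.LocallyFinite] (χ : V → Prop) (W C : Finset V) : ℝ :=
  (nu G (reg G W χ \ C) : ℝ) - nu G (reg G W (fun u => ¬ χ u) \ C)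

lemma abs_FF_le (W C : Finset V) : |FF G χ W C| ≤ (supp G W \ W).card := by
  have h : ∀ P, nu G (W \ C) ≤ nu G (reg G W P \ C) ∧
      nu G (reg G W P \ C) ≤ nu G (W \ C) + (supp G W \ W).card := by
    intro P
    refine ⟨nu_mono (sdiff_subset_sdiff (subset_reg W P) Subset.rfl), ?_⟩
    refine (nu_le_add_card (W \ C) _).trans (Nat.add_le_add_left (card_le_card fun x hx => ?_) _)
    have := @reg_subset_supp _ _ G _ W P x
    simp only [mem_sdiff] at hx ⊢
    tauto
  unfold FF
  have h1 := h χ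
  have h2 := h (fun u => ¬ χ u)
  have h3 : (nu G (reg G W χ \ C) : ℝ) ≤ nu G (reg G W (fun u => ¬ χ u) \ C) +
      (supp G W \ W).card := by exact_mod_cast (by omega)
  have h4 : (nu G (reg G W (fun u => ¬ χ u) \ C) : ℝ) ≤ nu G (reg G W χ \ C) +
      (supp G W \ W).card := by exact_mod_cast (by omega)
  rw [abs_le]
  constructor <;> linarith

open Classical in
lemma nu_diff (R C : Finset V) (v : V) :
    (nu G (R \ C.erase v) : ℝ) - nu G (R \ insert v C) =
      if ess G (R \ C.erase v) v then 1 else 0 := by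
  have h1 : R \ insert v C = (R \ C.erase v).erase v := by
    ext x
    simp only [mem_sdiff, mem_erase, mem_insert]
    tauto
  rw [h1]
  have h2 := nu_le_erase_succ (G := G) (R \ C.erase v) v
  have h3 := nu_mono (G := G) (erase_subset v (R \ C.erase v))
  unfold ess
  split_ifs with h
  · rw [show nu G (R \ C.erase v) = nu G ((R \ C.erase v).erase v) + 1 by omega]
    push_cast
    ring
  · rw [show nu G (R \ C.erase v) = nu G ((R \ C.erase v).erase v) by omega]
    ring

open Classical in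
lemma dind_le_FF (hχ : ∀ a b, G.Adj a b → (χ a ↔ ¬ χ b)) {W : Finset V} {v : V} (hv : v ∈ W)
    (C : Finset V) : dind G χ W v C ≤
      (if χ v then 1 else -1) * (FF G χ W (C.erase v) - FF G χ W (insert v C)) := by
  have h1 := nu_diff (G := G) (reg G W χ) C v
  have h2 := nu_diff (G := G) (reg G W (fun u => ¬ χ u)) C v
  have h3 := ess_opp_same hχ hv (notMem_erase v C)
  have h4 : FF G χ W (C.erase v) - FF G χ W (insert v C) =
      (if ess G (reg G W χ \ C.erase v) v then 1 else 0) -
        (if ess G (reg G W (fun u => ¬ χ u) \ C.erase v) v then 1 else 0) := by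
    unfold FF
    linarith
  rw [h4]
  unfold dind Drawish
  by_cases hc : χ v
  · rw [reg_congr W (P := fun u => χ u ↔ χ v) (Q := χ) (by simp [hc]),
      reg_congr W (P := fun u => ¬ (χ u ↔ χ v)) (Q := fun u => ¬ χ u) (by simp [hc])] at *
    by_cases e1 : ess G (reg G W χ \ C.erase v) v <;>
      by_cases e2 : ess G (reg G W (fun u => ¬ χ u) \ C.erase v) v <;> simp_all
  · rw [reg_congr W (P := fun u => χ u ↔ χ v) (Q := fun u => ¬ χ u) (by simp [hc]),
      reg_congr W (P := fun u => ¬ (χ u ↔ χ v)) (Q := χ) (by simp [hc])] at *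
    by_cases e1 : ess G (reg G W χ \ C.erase v) v <;>
      by_cases e2 : ess G (reg G W (fun u => ¬ χ u) \ C.erase v) v <;> simp_all

/-- The key finite-volume inequality. -/
lemma key_ineq (hχ : ∀ a b, G.Adj a b → (χ a ↔ ¬ χ b)) {o : V} (τ : V → G ≃g G)
    (hτ : ∀ v, τ v o = v) (hτχ : ∀ v w, (χ (τ v w) ↔ χ v) ↔ (χ w ↔ χ o))
    {p s e : ℝ} (hp0 : 0 < p) (hp1 : p < 1) (hs0 : 0 ≤ s) (hs1 : s ≤ p) (hs2 : s ≤ 1 - p)
    (he : 0 ≤ e) {U U' W : Finset V} (ho : o ∈ U) (hU : U ⊆ U')
    (hW : ∀ v ∈ W, W ⊆ U'.image (τ v))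
    (hε : (theta G χ o p U - theta G χ o p U') *
      Real.exp (W.card * (s ^ 2 / (p * (1 - p)))) ≤ e ^ 2) :
    W.card * (s * (theta G χ o p U - s * (supp G U).card - e)) ≤ 2 * (supp G W \ W).card := by
  classical
  set S : Finset V := supp G W ∪ W.biUnion (fun v => supp G (U'.image (τ v))) with hS
  have hWS : W ⊆ S := (subset_supp W).trans subset_union_left
  set q' : V → ℝ := fun u => p - s * (if χ u then 1 else -1) with hq'
  have hq'0 : ∀ u, 0 ≤ q' u := fun u => by simp only [hq']; split_ifs <;> linarith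
  have hq'1 : ∀ u, q' u ≤ 1 := fun u => by simp only [hq']; split_ifs <;> linarith
  have hq'2 : ∀ u, |q' u - p| ≤ s := fun u => by
    simp only [hq']
    split_ifs <;> simp [abs_of_nonneg hs0]
  have h := Ex_telescope (S := S) (q := fun _ => p) (q' := q') (FF G χ W)
    (fun _ => s * (theta G χ o p U - s * (supp G U).card - e)) hWS (fun r hr v hv => by
      have h0 : ∀ u, 0 ≤ r u := fun u => by rcases hr u with h | ⟨-, h⟩ <;> simp [h, hp0.le, hq'0]
      have h1 : ∀ u, r u ≤ 1 := fun u => by rcases hr u with h | ⟨-, h⟩ <;> simp [h, hp1.le, hq'1]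
      have h2 : ∀ u, |r u - p| ≤ s := fun u => by
        rcases hr u with h | ⟨-, h⟩ <;> simp [h, hs0, hq'2]
      have hτχ' : ∀ w, (χ (τ v w) ↔ χ (τ v o)) ↔ (χ w ↔ χ o) := by rw [hτ]; exact hτχ v
      have hS' : supp G (U'.image (τ v)) ⊆ S :=
        (subset_biUnion_of_mem (fun v => supp G (U'.image (τ v))) hv).trans subset_union_right
      have hUU : U.image (τ v) ⊆ U'.image (τ v) := image_subset_image hU
      have hS'' : supp G (U.image (τ v)) ⊆ S := (supp_mono hUU).trans hS'
      have hvU : v ∈ U.image (τ v) := mem_image.mpr ⟨o, ho, hτ v⟩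
      have t1 := Ex_dind_image (τ v) hτχ' p U hS''
      have t1' := Ex_dind_image (τ v) hτχ' p U Subset.rfl
      have t2 := Ex_dind_image (τ v) hτχ' p U' hS'
      rw [hτ] at t1 t1' t2
      have a1 : theta G χ o p U - s * (supp G U).card ≤ Ex S r (dind G χ (U.image (τ v)) v) := by
        rw [Ex_local _ (dind_local _ _) hS'', ← t1',
          ← card_image_of_injective (supp G U) (τ v).injective, ← supp_image]
        exact Ex_lip hp0.le hp1.le h0 h1 h2 (dind_cases _ _)
      have a2 : Ex S r (fun C => dind G χ (U.image (τ v)) v C - dind G χ (U'.image (τ v)) v C)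
          ≤ e := by
        have b1 := Ex_sq_le (S := S) (q := fun _ => p) (r := r) (fun _ => hp0) (fun _ => hp1)
          (f := fun C => dind G χ (U.image (τ v)) v C - dind G χ (U'.image (τ v)) v C)
          (fun C => by
            have := dind_mono hχ hUU hvU C
            rcases dind_cases (G := G) (χ := χ) (U.image (τ v)) v C with h | h <;>
              rcases dind_cases (G := G) (χ := χ) (U'.image (τ v)) v C with h' | h' <;>
              first | (left; linarith) | (right; linarith))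
        have b2 : ∏ u ∈ S, (1 + (r u - p) ^ 2 / (p * (1 - p))) ≤
            Real.exp (W.card * (s ^ 2 / (p * (1 - p)))) := by
          have hpp : 0 < p * (1 - p) := mul_pos hp0 (by linarith)
          calc ∏ u ∈ S, (1 + (r u - p) ^ 2 / (p * (1 - p)))
              ≤ ∏ u ∈ S, Real.exp (if u ∈ W then s ^ 2 / (p * (1 - p)) else 0) := by
                refine prod_le_prod (fun u _ => by positivity) (fun u _ => ?_)
                refine le_trans ?_ (Real.add_one_le_exp _)
                rw [add_comm]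
                gcongr
                split_ifs with hu
                · exact div_le_div_of_nonneg_right
                    (sq_le_sq' (abs_le.mp (h2 u)).1 (abs_le.mp (h2 u)).2) hpp.le
                · rcases hr u with h | ⟨h, -⟩
                  · simp [h]
                  · exact absurd h hu
            _ = _ := by
                rw [← Real.exp_sum, ← sum_filter, filter_mem_eq_inter, inter_eq_right.mpr hWS]
                simp
        have b3 : 0 ≤ theta G χ o p U - theta G χ o p U' := by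
          rw [← t1, ← t2, sub_nonneg]
          exact Ex_mono (fun _ => hp0.le) (fun _ => hp1.le) (fun C _ => dind_mono hχ hUU hvU C)
        rw [Ex_sub S (fun _ => p), t1, t2] at b1
        exact abs_le_of_sq_le_sq' (b1.trans ((mul_le_mul_of_nonneg_left b2 b3).trans hε)) he |>.2
      rw [Ex_sub] at a2
      have a3 : Ex S r (dind G χ (U'.image (τ v)) v) ≤ Ex S r (dind G χ W v) :=
        Ex_mono h0 h1 (fun C _ => dind_mono hχ (hW v hv) hv C)
      have a4 : Ex S r (dind G χ W v) ≤ (if χ v then 1 else -1) *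
          Ex S r (fun C => FF G χ W (C.erase v) - FF G χ W (insert v C)) := by
        rw [← Ex_const_mul]
        exact Ex_mono h0 h1 (fun C _ => dind_le_FF hχ hv C)
      have a5 : p - q' v = s * (if χ v then 1 else -1) := by simp only [hq']; ring
      rw [a5, mul_assoc]
      exact mul_le_mul_of_nonneg_left (by linarith) hs0)
  have c1 : Ex S (fun u => if u ∈ W then q' u else p) (FF G χ W) ≤ (supp G W \ W).card := by
    refine (Ex_mono (fun u => ?_) (fun u => ?_) (g := fun _ => ((supp G W \ W).card : ℝ))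
      fun C _ => (abs_le.mp (abs_FF_le W C)).2).trans (Ex_const _ _ _).le
    · split_ifs
      exacts [hq'0 u, hp0.le]
    · split_ifs
      exacts [hq'1 u, hp1.le]
  have c2 : -((supp G W \ W).card : ℝ) ≤ Ex S (fun _ => p) (FF G χ W) :=
    (Ex_const S (fun _ => p) _).ge.trans (Ex_mono (fun _ => hp0.le) (fun _ => hp1.le)
      (f := fun _ => -((supp G W \ W).card : ℝ)) fun C _ => (abs_le.mp (abs_FF_le W C)).1)
  simp only [sum_const, nsmul_eq_mul] at h
  linarith

/-- Rounding: in a graph with two-dimensional isoperimetry the finite-volume draw probability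
tends to zero. -/
theorem theta_small (hχ : ∀ a b, G.Adj a b → (χ a ↔ ¬ χ b)) {o : V} (τ : V → G ≃g G)
    (hτ : ∀ v, τ v o = v) (hτχ : ∀ v w, (χ (τ v w) ↔ χ v) ↔ (χ w ↔ χ o))
    {p : ℝ} (hp0 : 0 < p) (hp1 : p < 1) {c : ℝ}
    (hiso : ∀ n : ℕ, ∃ W : Finset V, n ≤ W.card ∧
      ((supp G W \ W).card : ℝ) ≤ c * Real.sqrt W.card)
    {δ : ℝ} (hδ : 0 < δ) : ∃ U : Finset V, o ∈ U ∧ theta G χ o p U < δ := by
  by_contra hcon
  push Not at hcon
  set A : Set ℝ := {x | ∃ U : Finset V, o ∈ U ∧ theta G χ o p U = x} with hA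
  have hAne : A.Nonempty := ⟨_, {o}, mem_singleton_self o, rfl⟩
  have hAb : BddBelow A := ⟨δ, by rintro _ ⟨U, hU, rfl⟩; exact hcon U hU⟩
  set θ : ℝ := sInf A with hθ
  have hθδ : δ ≤ θ := le_csInf hAne (by rintro _ ⟨U, hU, rfl⟩; exact hcon U hU)
  have hθ0 : 0 < θ := hδ.trans_le hθδ
  have hθle : ∀ U : Finset V, o ∈ U → θ ≤ theta G χ o p U := fun U hU => csInf_le hAb ⟨U, hU, rfl⟩
  set t : ℝ := (4 * |c| + 1) / θ with ht
  have ht0 : 0 < t := by positivity
  set K : ℝ := Real.exp (t ^ 2 / (p * (1 - p))) with hK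
  have hK0 : 0 < K := Real.exp_pos _
  obtain ⟨_, ⟨U, hoU, rfl⟩, hU⟩ := exists_lt_of_csInf_lt hAne
    (show sInf A < θ + (θ / 4) ^ 2 / K by rw [← hθ]; linarith [show 0 < (θ / 4) ^ 2 / K by positivity])
  set m : ℝ := ((supp G U).card : ℝ) with hm
  have hm0 : 0 ≤ m := Nat.cast_nonneg _
  set s₀ : ℝ := min (min p (1 - p)) (θ / 4 / (m + 1)) with hs₀
  have hs₀0 : 0 < s₀ := lt_min (lt_min hp0 (by linarith)) (by positivity)
  obtain ⟨n, hn⟩ := exists_nat_gt ((t / s₀) ^ 2)
  obtain ⟨W, hW1, hW2⟩ := hiso n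
  have hn' : (t / s₀) ^ 2 < W.card := hn.trans_le (by exact_mod_cast hW1)
  have hW0 : (0 : ℝ) < W.card := lt_of_le_of_lt (sq_nonneg _) hn'
  set L : ℝ := Real.sqrt (W.card : ℝ) with hL
  have hL0 : 0 < L := Real.sqrt_pos.mpr hW0
  have hL2 : L ^ 2 = W.card := Real.sq_sqrt hW0.le
  have hL3 : t / s₀ < L := Real.lt_sqrt_of_sq_lt hn'
  have hs : t / L ≤ s₀ := by
    rw [div_lt_iff₀ hs₀0] at hL3
    rw [div_le_iff₀ hL0]
    linarith
  set U' : Finset V := U ∪ W.biUnion (fun v => W.image (τ v).symm) with hU'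
  have hkey := key_ineq hχ τ hτ hτχ (s := t / L) (e := θ / 4) hp0 hp1 (by positivity)
    (hs.trans ((min_le_left _ _).trans (min_le_left _ _)))
    (hs.trans ((min_le_left _ _).trans (min_le_right _ _))) (by positivity)
    (U := U) (U' := U') (W := W) hoU subset_union_left
    (fun v hv w hw => mem_image.mpr ⟨(τ v).symm w,
      mem_union_right _ (mem_biUnion.mpr ⟨v, hv, mem_image_of_mem _ hw⟩), by simp⟩)
    (by
      have h1 : (W.card : ℝ) * ((t / L) ^ 2 / (p * (1 - p))) = t ^ 2 / (p * (1 - p)) := by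
        rw [← hL2]
        field_simp
      rw [h1, ← hK, ← le_div_iff₀ hK0]
      have := hθle U' (mem_union_left _ hoU)
      linarith)
  have h2 : t / L * m ≤ θ / 4 := by
    have h3 : t / L ≤ θ / 4 / (m + 1) := hs.trans (min_le_right _ _)
    rw [le_div_iff₀ (by positivity)] at h3
    have : 0 ≤ t / L := by positivity
    nlinarith
  have h3 : θ / 2 ≤ theta G χ o p U - t / L * m - θ / 4 := by linarith [hθle U hoU]
  have h4 : (W.card : ℝ) * (t / L * (θ / 2)) ≤ 2 * (c * L) := by
    refine le_trans ?_ (hkey.trans (by linarith))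
    gcongr
  have h5 : (W.card : ℝ) * (t / L * (θ / 2)) = L * ((4 * |c| + 1) / 2) := by
    rw [← hL2, ht]
    field_simp
  rw [h5] at h4
  nlinarith [le_abs_self c]

end Pool.Agent.P.MP_985e29_pr
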