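import Mathlib

namespace Pool.Agent.P.MP_985e29_pr

/-- `y` is a legal move at the position `P = (current vertex, visited vertices)`. -/
def Legal {V : Type} (H : SimpleGraph V) (P : V × Set V) (y : V) : Prop :=
  H.Adj P.1 y ∧ y ∉ P.2

/-- A strategy gives a legal move at every position where one exists. -/
def IsStrategy {V : Type} (H : SimpleGraph V) (σ : V × Set V → V) : Prop :=
  ∀ P, (∃ y, Legal H P y) → Legal H P (σ P)

/-- The position after `n` moves from `o`; the first player uses `σ`, the second `τ`. -/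
def play {V : Type} (σ τ : V × Set V → V) (o : V) : ℕ → V × Set V
  | 0 => (o, {o})
  | n + 1 =>
    ((if Even n then σ else τ) (play σ τ o n),
      insert ((if Even n then σ else τ) (play σ τ o n)) (play σ τ o n).2)

/-- The game stops after exactly `n` moves: the player to move then has no legal move. -/
def EndsAt {V : Type} (H : SimpleGraph V) (σ τ : V × Set V → V) (o : V) (n : ℕ) : Prop :=
  (¬ ∃ y, Legal H (play σ τ o n) y) ∧ ∀ m < n, ∃ y, Legal H (play σ τ o m) y

def FirstWins {V : Type} (H : SimpleGraph V) (o : V) : Prop :=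
  ∃ σ, IsStrategy H σ ∧ ∀ τ, IsStrategy H τ → ∃ n, Odd n ∧ EndsAt H σ τ o n

def SecondWins {V : Type} (H : SimpleGraph V) (o : V) : Prop :=
  ∃ τ, IsStrategy H τ ∧ ∀ σ, IsStrategy H σ → ∃ n, Even n ∧ EndsAt H σ τ o n

/-- The nearest-neighbour graph of `ℤ^d` restricted to the vertices outside the closed set `C`. -/
def openGraph (d : ℕ) (C : Set (Fin d → ℤ)) : SimpleGraph (Fin d → ℤ) where
  Adj x y := ∑ i, |x i - y i| = 1 ∧ x ∉ C ∧ y ∉ C
  symm := ⟨fun x y h => ⟨by simpa only [abs_sub_comm] using h.1, h.2.2, h.2.1⟩⟩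
  loopless := ⟨fun x h => by simpa using h.1⟩

/-- The closed sets `C` for which Trap from the origin is a draw. -/
def drawEvent (d : ℕ) : Set (Set (Fin d → ℤ)) :=
  {C | 0 ∉ C ∧ ¬ FirstWins (openGraph d C) 0 ∧ ¬ SecondWins (openGraph d C) 0}

end Pool.Agent.P.MP_985e29_pr
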