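import Pool.Agent.P.MP_985e29_pr.Low

set_option autoImplicit false

open Finset Filter MeasureTheory

namespace Pool.Agent.P.MP_985e29_pr

section General

variable {V : Type} [DecidableEq V] {ι : Type}

open Classical in
/-- Move to a vertex that is inessential in almost every region, when possible. -/
noncomputable def safeStrat (G H : SimpleGraph V) (K : ι → Finset V) (𝒰 : Ultrafilter ι)
    (Q : V × Set V) : V :=
  if h : ∃ u, Legal H Q u ∧ ∀ᶠ i in 𝒰, ¬ ess G ((K i).filter (· ∉ Q.2)) u then h.choose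
  else if h' : ∃ y, Legal H Q y then h'.choose else Q.1

lemma safeStrat_isStrategy (G H : SimpleGraph V) (K : ι → Finset V) (𝒰 : Ultrafilter ι) :
    IsStrategy H (safeStrat G H K 𝒰) := by
  intro Q hQ
  unfold safeStrat
  split_ifs with h
  · exact h.choose_spec.1
  · exact hQ.choose_spec

open Classical in
lemma safeStrat_spec {G H : SimpleGraph V} {K : ι → Finset V} {𝒰 : Ultrafilter ι} {Q : V × Set V}
    (h : ∃ u, Legal H Q u ∧ ∀ᶠ i in 𝒰, ¬ ess G ((K i).filter (· ∉ Q.2)) u) :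
    ∀ᶠ i in 𝒰, ¬ ess G ((K i).filter (· ∉ Q.2)) (safeStrat G H K 𝒰 Q) := by
  unfold safeStrat
  rw [dif_pos h]
  exact h.choose_spec.2

open Classical in
lemma safe_moves {G H : SimpleGraph V} [G.LocallyFinite] {K : ι → Finset V} {𝒰 : Ultrafilter ι}
    (hGH : ∀ i, ∀ a ∈ K i, ∀ b ∈ K i, G.Adj a b → H.Adj a b) (hHG : ∀ a b, H.Adj a b → G.Adj a b)
    (hexh : ∀ a b, H.Adj a b → ∀ᶠ i in 𝒰, b ∈ K i)
    (pos : ℕ → V × Set V) (s : ℕ → V × Set V → V) (good : ℕ → Prop)
    (hpos : ∀ n, pos (n + 1) = (s n (pos n), insert (s n (pos n)) (pos n).2))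
    (hgood : ∀ n, good (n + 1) ↔ ¬ good n) (hs : ∀ n, IsStrategy H (s n))
    (hsg : ∀ n, good n → s n = safeStrat G H K 𝒰) {o : V} (h0 : pos 0 = (o, {o}))
    (ho : ∀ᶠ i in 𝒰, o ∈ K i)
    (hini : (good 0 ∧ ∀ᶠ i in 𝒰, ess G (K i) o) ∨ (¬ good 0 ∧ ∀ᶠ i in 𝒰, ¬ ess G (K i) o))
    (n : ℕ) (hn : good n) (hleg : ∀ m < n, ∃ y, Legal H (pos m) y) : ∃ y, Legal H (pos n) y := by
  set U : ℕ → ι → Finset V := fun n i => (K i).filter (· ∉ (pos n).2) with hU
  have hmove : ∀ n, (pos n).1 ∈ (pos n).2 → (∀ᶠ i in 𝒰, (pos n).1 ∈ K i) →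
      (∀ᶠ i in 𝒰, ess G (insert (pos n).1 (U n i)) (pos n).1) →
      ∃ u, Legal H (pos n) u ∧ ∀ᶠ i in 𝒰, ¬ ess G (U n i) u := by
    intro n h1 h2 h3
    have h4 : ∀ᶠ i in 𝒰, ∃ u ∈ G.neighborSet (pos n).1, Legal H (pos n) u ∧ ¬ ess G (U n i) u := by
      filter_upwards [h2, h3] with i h2 h3
      have hn : (pos n).1 ∉ U n i := by simp [hU, h1]
      obtain ⟨u, hu, hadj, hne⟩ := (ess_iff (mem_insert_self _ _)).mp h3
      rw [erase_insert hn] at hu hne
      have hu' := mem_filter.mp hu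
      exact ⟨u, hadj, ⟨hGH i _ h2 _ hu'.1 hadj, hu'.2⟩, hne⟩
    obtain ⟨u, -, hu⟩ := (Ultrafilter.eventually_exists_mem_iff (Set.toFinite _)).mp h4
    exact ⟨u, hu.exists.choose_spec.1, hu.mono fun i hi => hi.2⟩
  have inv : ∀ n, (∀ m < n, ∃ y, Legal H (pos m) y) →
      (pos n).1 ∈ (pos n).2 ∧ (∀ᶠ i in 𝒰, (pos n).1 ∈ K i) ∧
      ((good n ∧ ∀ᶠ i in 𝒰, ess G (insert (pos n).1 (U n i)) (pos n).1) ∨
       (¬ good n ∧ ∀ᶠ i in 𝒰, ¬ ess G (insert (pos n).1 (U n i)) (pos n).1)) := by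
    intro n
    induction n with
    | zero =>
      intro _
      have hU0 : ∀ i, U 0 i = (K i).erase o := by
        intro i
        ext x
        simp [hU, h0, and_comm]
      simp only [hU0, h0]
      refine ⟨rfl, ho, ?_⟩
      rcases hini with ⟨h1, h2⟩ | ⟨h1, h2⟩
      · left
        refine ⟨h1, ?_⟩
        filter_upwards [ho, h2] with i h3 h4
        rwa [insert_erase h3]
      · right
        refine ⟨h1, ?_⟩
        filter_upwards [ho, h2] with i h3 h4
        rwa [insert_erase h3]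
    | succ n ih =>
      intro hleg
      obtain ⟨h1, h2, h4⟩ := ih (fun m hm => hleg m (by omega))
      have hl : Legal H (pos n) (s n (pos n)) := hs n _ (hleg n (by omega))
      set y := s n (pos n) with hy
      have hn : ∀ i, (pos n).1 ∉ U n i := by simp [hU, h1]
      have hadj := hHG _ _ hl.1
      have hyK : ∀ᶠ i in 𝒰, y ∈ K i := hexh _ _ hl.1
      have hyU : ∀ᶠ i in 𝒰, y ∈ U n i := hyK.mono fun i hi => mem_filter.mpr ⟨hi, hl.2⟩
      have hU1 : ∀ i, U (n + 1) i = (U n i).erase y := by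
        intro i
        ext x
        simp only [hU, hpos n, mem_filter, mem_erase, Set.mem_insert_iff, ← hy]
        tauto
      have hp1 : (pos (n + 1)).1 = y := by rw [hpos n]
      have hp2 : (pos (n + 1)).2 = insert y (pos n).2 := by rw [hpos n]
      simp only [hU1, hp1, hp2]
      refine ⟨Set.mem_insert _ _, hyK, ?_⟩
      rcases h4 with ⟨hg, he⟩ | ⟨hg, he⟩
      · right
        refine ⟨by rw [hgood]; tauto, ?_⟩
        have h5 := safeStrat_spec (hmove n h1 h2 he)
        rw [← hsg n hg, ← hy] at h5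
        filter_upwards [hyU, h5] with i h6 h7
        rwa [insert_erase h6]
      · left
        refine ⟨by rw [hgood]; tauto, ?_⟩
        filter_upwards [hyU, he] with i h6 h7
        rw [insert_erase h6]
        by_contra hne
        refine h7 ((ess_iff (mem_insert_self _ _)).mpr ⟨y, ?_, hadj, ?_⟩)
        · rwa [erase_insert (hn i)]
        · rwa [erase_insert (hn i)]
  obtain ⟨h1, h2, h4⟩ := inv _ hleg
  rcases h4 with ⟨-, he⟩ | ⟨hg', -⟩
  · obtain ⟨u, hu, -⟩ := hmove _ h1 h2 he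
    exact ⟨u, hu⟩
  · exact absurd hn hg'

/-- If `o` is essential along an exhaustion `K` of the open vertices, the second player does not
win. -/
theorem not_secondWins_of_ess {G H : SimpleGraph V} [G.LocallyFinite] {K : ι → Finset V}
    {l : Filter ι} [l.NeBot]
    (hGH : ∀ i, ∀ a ∈ K i, ∀ b ∈ K i, G.Adj a b → H.Adj a b) (hHG : ∀ a b, H.Adj a b → G.Adj a b)
    (hexh : ∀ a b, H.Adj a b → ∀ᶠ i in l, b ∈ K i) {o : V} (he : ∀ᶠ i in l, ess G (K i) o) :
    ¬ SecondWins H o := by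
  rintro ⟨τ, hτ, h⟩
  have hle := Ultrafilter.of_le l
  obtain ⟨n, h1, h2, h3⟩ := h _ (safeStrat_isStrategy G H K (Ultrafilter.of l))
  exact h2 (safe_moves hGH hHG (fun a b hab => hle (hexh a b hab))
    (play (safeStrat G H K (Ultrafilter.of l)) τ o)
    (fun n => if Even n then safeStrat G H K (Ultrafilter.of l) else τ) Even (fun n => rfl)
    (fun n => Nat.even_add_one) (fun n => by
      split_ifs
      exacts [safeStrat_isStrategy G H K _, hτ]) (fun n hn => if_pos hn) rfl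
    (hle (he.mono fun i hi => hi.mem)) (Or.inl ⟨Even.zero, hle he⟩) n h1 h3)

/-- If `o` is inessential along an exhaustion `K` of the open vertices, the first player does not
win. -/
theorem not_firstWins_of_not_ess {G H : SimpleGraph V} [G.LocallyFinite] {K : ι → Finset V}
    {l : Filter ι} [l.NeBot]
    (hGH : ∀ i, ∀ a ∈ K i, ∀ b ∈ K i, G.Adj a b → H.Adj a b) (hHG : ∀ a b, H.Adj a b → G.Adj a b)
    (hexh : ∀ a b, H.Adj a b → ∀ᶠ i in l, b ∈ K i) {o : V} (ho : ∀ᶠ i in l, o ∈ K i)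
    (he : ∀ᶠ i in l, ¬ ess G (K i) o) : ¬ FirstWins H o := by
  rintro ⟨σ, hσ, h⟩
  have hle := Ultrafilter.of_le l
  obtain ⟨n, h1, h2, h3⟩ := h _ (safeStrat_isStrategy G H K (Ultrafilter.of l))
  exact h2 (safe_moves hGH hHG (fun a b hab => hle (hexh a b hab))
    (play σ (safeStrat G H K (Ultrafilter.of l)) o)
    (fun n => if Even n then σ else safeStrat G H K (Ultrafilter.of l)) (fun n => ¬ Even n)
    (fun n => rfl) (fun n => by rw [Nat.even_add_one]) (fun n => by
      split_ifs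
      exacts [hσ, safeStrat_isStrategy G H K _]) (fun n hn => if_neg hn) rfl
    (hle ho) (Or.inr ⟨by simp, hle he⟩) n (Nat.not_even_iff_odd.mpr h1) h3)

end General

attribute [local instance] latLocallyFinite

open Classical in
/-- A draw is exactly a finite-volume draw in every window. -/
theorem draw_iff {d : ℕ} {X : Set (Fin d → ℤ)} : X ∈ drawEvent d ↔
    0 ∉ X ∧ ∀ U : Finset (Fin d → ℤ), 0 ∈ U →
      Drawish (lat d) par U 0 ((supp (lat d) U).filter (· ∈ X)) := by
  refine ⟨fun h => ⟨h.1, fun U hU => drawish_of_draw h hU⟩, fun ⟨h0, h⟩ => ?_⟩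
  set K : ((Fin d → ℤ) → Prop) → Finset (Fin d → ℤ) → Finset (Fin d → ℤ) :=
    fun P U => reg (lat d) U P \ ((supp (lat d) U).filter (· ∈ X)).erase 0 with hK
  have hopen : ∀ P U, ∀ x ∈ K P U, x ∉ X := by
    intro P U x hx hxX
    obtain ⟨hx1, hx2⟩ := mem_sdiff.mp hx
    exact hx2 (mem_erase.mpr ⟨fun e => h0 (e ▸ hxX),
      mem_filter.mpr ⟨reg_subset_supp U P hx1, hxX⟩⟩)
  have hGH : ∀ P U, ∀ a ∈ K P U, ∀ b ∈ K P U, (lat d).Adj a b → (openGraph d X).Adj a b :=
    fun P U a ha b hb h => openGraph_adj.mpr ⟨h, hopen P U a ha, hopen P U b hb⟩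
  have hHG : ∀ a b, (openGraph d X).Adj a b → (lat d).Adj a b :=
    fun a b h => (openGraph_adj.mp h).1
  have hmem : ∀ P b, b ∉ X → ∀ᶠ U in atTop, b ∈ K P U := by
    intro P b hb
    filter_upwards [eventually_ge_atTop {b}] with U hU
    exact mem_sdiff.mpr ⟨subset_reg U P (hU (mem_singleton_self b)),
      fun hw => hb (mem_filter.mp (mem_of_mem_erase hw)).2⟩
  have hev : ∀ᶠ U in atTop, Drawish (lat d) par U 0 ((supp (lat d) U).filter (· ∈ X)) := by
    filter_upwards [eventually_ge_atTop {0}] with U hU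
    exact h U (hU (mem_singleton_self 0))
  exact ⟨h0, not_firstWins_of_not_ess (l := atTop) (hGH _) hHG
      (fun a b hab => hmem _ b (openGraph_adj.mp hab).2.2) (hmem _ 0 h0) (hev.mono fun U hU => hU.2),
    not_secondWins_of_ess (l := atTop) (hGH _) hHG
      (fun a b hab => hmem _ b (openGraph_adj.mp hab).2.2) (hev.mono fun U hU => hU.1)⟩

open Classical in
lemma measurableSet_local {V : Type} [DecidableEq V] (S : Finset V) (A : Finset V → Prop) :
    MeasurableSet {X : Set V | A (S.filter (· ∈ X))} := by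
  have h1 : {X : Set V | A (S.filter (· ∈ X))} =
      ⋃ C ∈ S.powerset.filter A, ⋂ v ∈ S, {X : Set V | v ∈ X ↔ v ∈ C} := by
    ext X
    simp only [Set.mem_iUnion, Set.mem_iInter, Set.mem_ofPred_eq]
    constructor
    · intro h
      exact ⟨S.filter (· ∈ X), mem_filter.mpr ⟨mem_powerset.mpr (filter_subset _ _), h⟩,
        fun v hv => by simp [hv]⟩
    · rintro ⟨C, hC, h⟩
      obtain ⟨h1, h2⟩ := mem_filter.mp hC
      convert h2
      ext v
      have := @mem_powerset.mp h1 v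
      have := h v
      simp only [mem_filter]
      tauto
  rw [h1]
  refine Finset.measurableSet_biUnion _ fun C _ => Finset.measurableSet_biInter _ fun v _ => ?_
  measurability

theorem measurableSet_drawEvent (d : ℕ) : MeasurableSet (drawEvent d) := by
  classical
  have : drawEvent d = {X | 0 ∉ X} ∩ ⋂ U : Finset (Fin d → ℤ), ⋂ _ : 0 ∈ U,
      {X | Drawish (lat d) par U 0 ((supp (lat d) U).filter (· ∈ X))} := by
    ext X
    rw [draw_iff]
    simp
  rw [this]
  refine MeasurableSet.inter (by measurability) (MeasurableSet.iInter fun U =>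
    MeasurableSet.iInter fun _ => measurableSet_local _ _)

end Pool.Agent.P.MP_985e29_pr
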