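import Mathlib

set_option autoImplicit false

open Finset

namespace Pool.Agent.P.MP_985e29_pr

variable {V : Type*} [DecidableEq V] (G : SimpleGraph V)

/-- `M` is a matching of `G` inside the finite vertex set `K`. -/
def IsM (K : Finset V) (M : Finset (V × V)) : Prop :=
  (∀ e ∈ M, G.Adj e.1 e.2 ∧ e.1 ∈ K ∧ e.2 ∈ K) ∧
  ∀ e ∈ M, ∀ f ∈ M, e ≠ f → e.1 ≠ f.1 ∧ e.1 ≠ f.2 ∧ e.2 ≠ f.1 ∧ e.2 ≠ f.2

open Classical in
/-- Maximum size of a matching of `G` inside `K`. -/
noncomputable def nu (K : Finset V) : ℕ := ((K ×ˢ K).powerset.filter (IsM G K)).sup card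

/-- `v` is covered by every maximum matching inside `K`. -/
def ess (K : Finset V) (v : V) : Prop := nu G (K.erase v) < nu G K

variable {G}

lemma IsM.card_le {K : Finset V} {M : Finset (V × V)} (h : IsM G K M) : M.card ≤ nu G K := by
  classical
  unfold nu
  refine Finset.le_sup (f := card) (mem_filter.mpr ⟨mem_powerset.mpr fun e he => ?_, h⟩)
  exact mem_product.mpr (h.1 e he).2

lemma exists_max (K : Finset V) : ∃ M, IsM G K M ∧ M.card = nu G K := by
  classical
  obtain ⟨M, hM, h⟩ := Finset.exists_mem_eq_sup ((K ×ˢ K).powerset.filter (IsM G K))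
    ⟨∅, mem_filter.mpr ⟨by simp, by simp [IsM]⟩⟩ card
  exact ⟨M, (mem_filter.mp hM).2, h.symm⟩

lemma nu_mono {K K' : Finset V} (h : K ⊆ K') : nu G K ≤ nu G K' := by
  obtain ⟨M, hM, hc⟩ := exists_max (G := G) K
  rw [← hc]
  exact IsM.card_le ⟨fun e he => ⟨(hM.1 e he).1, h (hM.1 e he).2.1, h (hM.1 e he).2.2⟩, hM.2⟩

lemma nu_edge {K : Finset V} {v u : V} (hv : v ∈ K) (hu : u ∈ K) (h : G.Adj v u) :
    nu G ((K.erase v).erase u) + 1 ≤ nu G K := by
  obtain ⟨M, hM, hc⟩ := exists_max (G := G) ((K.erase v).erase u)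
  have hn : (v, u) ∉ M := fun hm => by simpa using (hM.1 _ hm).2.1
  rw [← hc, ← card_insert_of_notMem hn]
  refine IsM.card_le ⟨fun e he => ?_, fun e he f hf hef => ?_⟩
  · rcases mem_insert.mp he with rfl | he
    · exact ⟨h, hv, hu⟩
    · have := hM.1 e he
      simp only [mem_erase] at this
      tauto
  · rcases mem_insert.mp he with rfl | he <;> rcases mem_insert.mp hf with rfl | hf
    · exact absurd rfl hef
    · have := hM.1 f hf
      simp only [mem_erase] at this
      tauto
    · have := hM.1 e he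
      simp only [mem_erase] at this
      tauto
    · exact hM.2 e he f hf hef

lemma nu_cases (K : Finset V) (v : V) : nu G K ≤ nu G (K.erase v) ∨
    ∃ u ∈ K.erase v, G.Adj v u ∧ nu G K ≤ nu G ((K.erase v).erase u) + 1 := by
  obtain ⟨M, hM, hc⟩ := exists_max (G := G) K
  by_cases h : ∃ e ∈ M, e.1 = v ∨ e.2 = v
  · right
    obtain ⟨e, he, hev⟩ := h
    have h1 := hM.1 e he
    have key : ∀ u, (u = e.1 ∨ u = e.2) → nu G K ≤ nu G ((K.erase v).erase u) + 1 := by
      intro u hu
      rw [← hc, ← card_erase_add_one he]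
      refine Nat.add_le_add_right (IsM.card_le ⟨fun f hf => ?_, fun f hf g hg => ?_⟩) 1
      · obtain ⟨hf1, hf2⟩ := mem_erase.mp hf
        have h2 := hM.1 f hf2
        have h3 := hM.2 f hf2 e he hf1
        simp only [mem_erase]
        grind
      · exact hM.2 f (mem_of_mem_erase hf) g (mem_of_mem_erase hg)
    rcases hev with rfl | rfl
    · exact ⟨e.2, mem_erase.mpr ⟨h1.1.ne', h1.2.2⟩, h1.1, key _ (Or.inr rfl)⟩
    · exact ⟨e.1, mem_erase.mpr ⟨h1.1.ne, h1.2.1⟩, h1.1.symm, key _ (Or.inl rfl)⟩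
  · left
    push Not at h
    rw [← hc]
    refine IsM.card_le ⟨fun e he => ?_, hM.2⟩
    have h1 := hM.1 e he
    have h2 := h e he
    simp only [mem_erase]
    tauto

lemma nu_le_erase_succ (K : Finset V) (v : V) : nu G K ≤ nu G (K.erase v) + 1 := by
  rcases nu_cases (G := G) K v with h | ⟨u, -, -, h⟩
  · omega
  · have := nu_mono (G := G) (erase_subset u (K.erase v))
    omega

lemma ess_iff {K : Finset V} {v : V} (hv : v ∈ K) :
    ess G K v ↔ ∃ u ∈ K.erase v, G.Adj v u ∧ ¬ ess G (K.erase v) u := by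
  unfold ess
  constructor
  · intro h
    rcases nu_cases (G := G) K v with h1 | ⟨u, hu, h1, h2⟩
    · omega
    · exact ⟨u, hu, h1, by omega⟩
  · rintro ⟨u, hu, h1, h2⟩
    have := nu_edge hv (mem_of_mem_erase hu) h1
    omega

lemma ess.mem {K : Finset V} {v : V} (h : ess G K v) : v ∈ K := by
  by_contra hv
  unfold ess at h
  rw [erase_eq_of_notMem hv] at h
  omega

lemma nu_le_add_card (K K' : Finset V) : nu G K' ≤ nu G K + (K' \ K).card := by
  induction h : (K' \ K).card generalizing K' with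
  | zero =>
    exact nu_mono (sdiff_eq_empty_iff_subset.mp (card_eq_zero.mp h))
  | succ n ih =>
    obtain ⟨v, hv⟩ := card_pos.mp (by omega : 0 < (K' \ K).card)
    have h1 : (K'.erase v \ K).card = n := by
      rw [erase_sdiff_comm, card_erase_of_mem hv, h]
      rfl
    have := ih _ h1
    have := nu_le_erase_succ (G := G) K' v
    omega

lemma nu_le_image (φ : G ≃g G) (K : Finset V) : nu G K ≤ nu G (K.image φ) := by
  obtain ⟨M, hM, hc⟩ := exists_max (G := G) K
  have hinj : Function.Injective (Prod.map φ φ) := φ.injective.prodMap φ.injective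
  rw [← hc, ← card_image_of_injective M hinj]
  refine IsM.card_le ⟨fun e he => ?_, fun e he f hf hef => ?_⟩
  · obtain ⟨e', he', rfl⟩ := mem_image.mp he
    have := hM.1 e' he'
    exact ⟨φ.map_adj_iff.mpr this.1, mem_image_of_mem _ this.2.1, mem_image_of_mem _ this.2.2⟩
  · obtain ⟨e', he', rfl⟩ := mem_image.mp he
    obtain ⟨f', hf', rfl⟩ := mem_image.mp hf
    have := hM.2 e' he' f' hf' (fun h => hef (by rw [h]))
    simpa using this

lemma nu_image (φ : G ≃g G) (K : Finset V) : nu G (K.image φ) = nu G K := by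
  refine le_antisymm ?_ (nu_le_image φ K)
  have := nu_le_image φ.symm (K.image φ)
  rw [image_image] at this
  simpa [Function.comp_def] using this

lemma ess_image (φ : G ≃g G) (K : Finset V) (v : V) : ess G (K.image φ) (φ v) ↔ ess G K v := by
  unfold ess
  rw [← image_erase φ.injective, nu_image, nu_image]

/-- Monotonicity in the region: if the vertices of `K` satisfying `P` have all their
`K'`-neighbours in `K`, where adjacent vertices have opposite `P`-status, then the outcomes that
favour the player moving onto `P`-vertices persist from `K` to `K'`. -/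
lemma ess_mono {P : V → Prop} (hP : ∀ a b, G.Adj a b → (P a ↔ ¬ P b)) {K K' : Finset V}
    (hK : K ⊆ K') (hcl : ∀ u ∈ K, P u → ∀ w ∈ K', G.Adj u w → w ∈ K) {x : V} (hx : x ∈ K) :
    (¬ P x → ess G K x → ess G K' x) ∧ (P x → ess G K' x → ess G K x) := by
  induction h : K.card generalizing K K' x with
  | zero => simp [card_eq_zero.mp h] at hx
  | succ n ih =>
    have hc : (K.erase x).card = n := by rw [card_erase_of_mem hx, h]; rfl
    have hsub : K.erase x ⊆ K'.erase x := erase_subset_erase x hK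
    have hcl' : ∀ u ∈ K.erase x, P u → ∀ w ∈ K'.erase x, G.Adj u w → w ∈ K.erase x := by
      intro u hu hPu w hw hadj
      exact mem_erase.mpr ⟨(mem_erase.mp hw).1,
        hcl u (mem_of_mem_erase hu) hPu w (mem_of_mem_erase hw) hadj⟩
    constructor
    · intro hPx he
      obtain ⟨u, hu, hadj, hne⟩ := (ess_iff hx).mp he
      have hPu : P u := by have := hP x u hadj; tauto
      exact (ess_iff (hK hx)).mpr ⟨u, hsub hu, hadj,
        fun h' => hne ((ih hsub hcl' hu hc).2 hPu h')⟩
    · intro hPx he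
      obtain ⟨u, hu, hadj, hne⟩ := (ess_iff (hK hx)).mp he
      have hu' : u ∈ K.erase x :=
        mem_erase.mpr ⟨(mem_erase.mp hu).1, hcl x hx hPx u (mem_of_mem_erase hu) hadj⟩
      have hPu : ¬ P u := (hP x u hadj).mp hPx
      exact (ess_iff hx).mpr ⟨u, hu', hadj, fun h' => hne ((ih hsub hcl' hu' hc).1 hPu h')⟩

end Pool.Agent.P.MP_985e29_pr
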