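import Pool.Agent.P.MP_985e29_pr.Defs
import Pool.Agent.P.MP_985e29_pr.Match

set_option autoImplicit false

open Finset

namespace Pool.Agent.P.MP_985e29_pr

variable {V : Type} [DecidableEq V]

open Classical in
/-- Move to an inessential vertex of the unvisited part of `K` when possible. -/
noncomputable def goodStrat (G H : SimpleGraph V) (K : Finset V) (Q : V × Set V) : V :=
  if h : ∃ u, Legal H Q u ∧ u ∈ K ∧ ¬ ess G (K.filter (· ∉ Q.2)) u then h.choose
  else if h' : ∃ y, Legal H Q y then h'.choose else Q.1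

lemma goodStrat_isStrategy (G H : SimpleGraph V) (K : Finset V) :
    IsStrategy H (goodStrat G H K) := by
  intro Q hQ
  unfold goodStrat
  split_ifs with h
  · exact h.choose_spec.1
  · exact hQ.choose_spec

open Classical in
lemma goodStrat_spec {G H : SimpleGraph V} {K : Finset V} {Q : V × Set V}
    (h : ∃ u, Legal H Q u ∧ u ∈ K ∧ ¬ ess G (K.filter (· ∉ Q.2)) u) :
    Legal H Q (goodStrat G H K Q) ∧ goodStrat G H K Q ∈ K ∧
      ¬ ess G (K.filter (· ∉ Q.2)) (goodStrat G H K Q) := by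
  unfold goodStrat
  rw [dif_pos h]
  exact h.choose_spec

open Classical in
lemma good_wins {G H : SimpleGraph V} {K : Finset V} {P : V → Prop}
    (hP : ∀ a b, G.Adj a b → (P a ↔ ¬ P b))
    (hGH : ∀ a ∈ K, ∀ b ∈ K, G.Adj a b → H.Adj a b) (hHG : ∀ a b, H.Adj a b → G.Adj a b)
    (hcl : ∀ u ∈ K, P u → ∀ w, H.Adj u w → w ∈ K)
    (pos : ℕ → V × Set V) (s : ℕ → V × Set V → V) (good : ℕ → Prop)
    (hpos : ∀ n, pos (n + 1) = (s n (pos n), insert (s n (pos n)) (pos n).2))
    (hgood : ∀ n, good (n + 1) ↔ ¬ good n) (hs : ∀ n, IsStrategy H (s n))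
    (hsg : ∀ n, good n → s n = goodStrat G H K) {o : V} (h0 : pos 0 = (o, {o})) (ho : o ∈ K)
    (hini : (good 0 ∧ ¬ P o ∧ ess G K o) ∨ (¬ good 0 ∧ P o ∧ ¬ ess G K o)) :
    ∃ n, ¬ good n ∧ (¬ ∃ y, Legal H (pos n) y) ∧ ∀ m < n, ∃ y, Legal H (pos m) y := by
  set U : ℕ → Finset V := fun n => K.filter (· ∉ (pos n).2) with hU
  have hmove : ∀ n, (pos n).1 ∈ (pos n).2 → (pos n).1 ∈ K → ess G (insert (pos n).1 (U n)) (pos n).1 →
      ∃ u, Legal H (pos n) u ∧ u ∈ K ∧ ¬ ess G (U n) u := by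
    intro n h1 h2 h3
    have hn : (pos n).1 ∉ U n := by simp [hU, h1]
    obtain ⟨u, hu, hadj, hne⟩ := (ess_iff (mem_insert_self _ _)).mp h3
    rw [erase_insert hn] at hu hne
    have hu' := mem_filter.mp hu
    exact ⟨u, ⟨hGH _ h2 _ hu'.1 hadj, hu'.2⟩, hu'.1, hne⟩
  have inv : ∀ n, (∀ m < n, ∃ y, Legal H (pos m) y) →
      (pos n).1 ∈ (pos n).2 ∧ (pos n).1 ∈ K ∧ (U n).card + n + 1 = K.card ∧
      ((good n ∧ ¬ P (pos n).1 ∧ ess G (insert (pos n).1 (U n)) (pos n).1) ∨
       (¬ good n ∧ P (pos n).1 ∧ ¬ ess G (insert (pos n).1 (U n)) (pos n).1)) := by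
    intro n
    induction n with
    | zero =>
      intro _
      have hU0 : U 0 = K.erase o := by
        ext x
        simp [hU, h0, and_comm]
      rw [hU0, h0, insert_erase ho]
      exact ⟨rfl, ho, by simpa using card_erase_add_one ho, hini⟩
    | succ n ih =>
      intro hleg
      obtain ⟨h1, h2, h3, h4⟩ := ih (fun m hm => hleg m (by omega))
      have hl : Legal H (pos n) (s n (pos n)) := hs n _ (hleg n (by omega))
      set y := s n (pos n) with hy
      have hn : (pos n).1 ∉ U n := by simp [hU, h1]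
      have hadj := hHG _ _ hl.1
      have hyK : y ∈ K := by
        rcases h4 with ⟨hg, -, he⟩ | ⟨-, hp, -⟩
        · rw [hy, hsg n hg]
          exact (goodStrat_spec (hmove n h1 h2 he)).2.1
        · exact hcl _ h2 hp _ hl.1
      have hyU : y ∈ U n := mem_filter.mpr ⟨hyK, hl.2⟩
      have hU1 : U (n + 1) = (U n).erase y := by
        ext x
        simp only [hU, hpos n, mem_filter, mem_erase, Set.mem_insert_iff, ← hy]
        tauto
      have hp1 : (pos (n + 1)).1 = y := by rw [hpos n]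
      have hp2 : (pos (n + 1)).2 = insert y (pos n).2 := by rw [hpos n]
      rw [hU1, hp1, hp2, insert_erase hyU]
      refine ⟨Set.mem_insert _ _, hyK, ?_, ?_⟩
      · have := card_erase_add_one hyU
        omega
      · have hPP := hP _ _ hadj
        rcases h4 with ⟨hg, hp, he⟩ | ⟨hg, hp, he⟩
        · right
          refine ⟨by rw [hgood]; tauto, by tauto, ?_⟩
          rw [hy, hsg n hg]
          exact (goodStrat_spec (hmove n h1 h2 he)).2.2
        · left
          refine ⟨by rw [hgood]; tauto, by tauto, ?_⟩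
          by_contra hne
          refine he ((ess_iff (mem_insert_self _ _)).mpr ⟨y, ?_, hadj, ?_⟩)
          · rwa [erase_insert hn]
          · rwa [erase_insert hn]
  have hex : ∃ n, ¬ ∃ y, Legal H (pos n) y := by
    by_contra hc
    push Not at hc
    have := (inv K.card (fun m _ => hc m)).2.2.1
    omega
  have hmin : ∀ m < Nat.find hex, ∃ y, Legal H (pos m) y := fun m hm => by
    have := Nat.find_min hex hm
    tauto
  refine ⟨Nat.find hex, fun hg => ?_, Nat.find_spec hex, hmin⟩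
  obtain ⟨h1, h2, -, h4⟩ := inv _ hmin
  rcases h4 with ⟨-, -, he⟩ | ⟨hg', -, -⟩
  · obtain ⟨u, hu, -⟩ := hmove _ h1 h2 he
    exact Nat.find_spec hex ⟨u, hu⟩
  · exact hg' hg

theorem firstWins_of_ess {G H : SimpleGraph V} {K : Finset V} {P : V → Prop}
    (hP : ∀ a b, G.Adj a b → (P a ↔ ¬ P b))
    (hGH : ∀ a ∈ K, ∀ b ∈ K, G.Adj a b → H.Adj a b) (hHG : ∀ a b, H.Adj a b → G.Adj a b)
    (hcl : ∀ u ∈ K, P u → ∀ w, H.Adj u w → w ∈ K) {o : V} (hPo : ¬ P o) (he : ess G K o) :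
    FirstWins H o := by
  refine ⟨goodStrat G H K, goodStrat_isStrategy G H K, fun τ hτ => ?_⟩
  obtain ⟨n, h1, h2⟩ := good_wins hP hGH hHG hcl (play (goodStrat G H K) τ o)
    (fun n => if Even n then goodStrat G H K else τ) Even (fun n => rfl)
    (fun n => Nat.even_add_one) (fun n => by
      split_ifs
      exacts [goodStrat_isStrategy G H K, hτ]) (fun n hn => if_pos hn) rfl he.mem
    (Or.inl ⟨Even.zero, hPo, he⟩)
  exact ⟨n, Nat.not_even_iff_odd.mp h1, h2⟩

theorem secondWins_of_not_ess {G H : SimpleGraph V} {K : Finset V} {P : V → Prop}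
    (hP : ∀ a b, G.Adj a b → (P a ↔ ¬ P b))
    (hGH : ∀ a ∈ K, ∀ b ∈ K, G.Adj a b → H.Adj a b) (hHG : ∀ a b, H.Adj a b → G.Adj a b)
    (hcl : ∀ u ∈ K, P u → ∀ w, H.Adj u w → w ∈ K) {o : V} (ho : o ∈ K) (hPo : P o)
    (he : ¬ ess G K o) : SecondWins H o := by
  refine ⟨goodStrat G H K, goodStrat_isStrategy G H K, fun σ hσ => ?_⟩
  obtain ⟨n, h1, h2⟩ := good_wins hP hGH hHG hcl (play σ (goodStrat G H K) o)
    (fun n => if Even n then σ else goodStrat G H K) (fun n => ¬ Even n) (fun n => rfl)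
    (fun n => by rw [Nat.even_add_one]) (fun n => by
      split_ifs
      exacts [hσ, goodStrat_isStrategy G H K]) (fun n hn => if_neg hn) rfl ho
    (Or.inr ⟨by simp, hPo, he⟩)
  exact ⟨n, by tauto, h2⟩

theorem not_firstWins_and_secondWins {H : SimpleGraph V} {o : V} :
    ¬ (FirstWins H o ∧ SecondWins H o) := by
  rintro ⟨⟨σ, hσ, h1⟩, ⟨τ, hτ, h2⟩⟩
  obtain ⟨n, hn, hn1, hn2⟩ := h1 τ hτ
  obtain ⟨m, hm, hm1, hm2⟩ := h2 σ hσ
  rcases lt_trichotomy n m with h | h | h
  · exact hn1 (hm2 n h)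
  · subst h
    exact Nat.not_even_iff_odd.mpr hn hm
  · exact hm1 (hn2 m h)

end Pool.Agent.P.MP_985e29_pr
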