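import Pool.Agent.P.MP_985e29_pr.AW
import Pool.Agent.P.MP_985e29_pr.Game

set_option autoImplicit false

open Finset MeasureTheory ProbabilityTheory

namespace Pool.Agent.P.MP_985e29_pr

/-- The full nearest-neighbour lattice. -/
def lat (d : ℕ) : SimpleGraph (Fin d → ℤ) := openGraph d ∅

lemma lat_adj {d : ℕ} {x y : Fin d → ℤ} : (lat d).Adj x y ↔ ∑ i, |x i - y i| = 1 := by
  simp [lat, openGraph]

lemma openGraph_adj {d : ℕ} {C : Set (Fin d → ℤ)} {x y : Fin d → ℤ} :
    (openGraph d C).Adj x y ↔ (lat d).Adj x y ∧ x ∉ C ∧ y ∉ C := by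
  simp [lat, openGraph]

lemma lat_adj_abs_le {d : ℕ} {x y : Fin d → ℤ} (h : (lat d).Adj x y) (i : Fin d) :
    |x i - y i| ≤ 1 := by
  rw [← lat_adj.mp h]
  exact single_le_sum (f := fun i => |x i - y i|) (fun _ _ => abs_nonneg _) (mem_univ i)

/-- Every site has finitely many neighbours. -/
@[instance_reducible] noncomputable def latLocallyFinite (d : ℕ) : (lat d).LocallyFinite := fun x =>
  Set.Finite.fintype (((Fintype.piFinset fun i => Icc (x i - 1) (x i + 1)).finite_toSet).subset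
    fun y hy => by
      simp only [mem_coe, Fintype.mem_piFinset, mem_Icc]
      intro i
      have := abs_le.mp (lat_adj_abs_le hy i)
      omega)

attribute [local instance] latLocallyFinite

/-- Even sites. -/
def par {d : ℕ} (x : Fin d → ℤ) : Prop := Even (∑ i, x i)

lemma par_proper {d : ℕ} (a b : Fin d → ℤ) (h : (lat d).Adj a b) : par a ↔ ¬ par b := by
  have h1 : Even (∑ i, (|a i - b i| - (a i - b i))) := by
    refine Finset.even_sum _ fun i _ => ?_
    rcases abs_cases (a i - b i) with h | h <;> rw [h.1]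
    · simp
    · exact ⟨-(a i - b i), by ring⟩
  rw [sum_sub_distrib, lat_adj.mp h, sum_sub_distrib] at h1
  unfold par
  grind

/-- Translation of the lattice. -/
def shift {d : ℕ} (v : Fin d → ℤ) : lat d ≃g lat d where
  toEquiv := Equiv.addRight v
  map_rel_iff' := by simp [lat_adj]

lemma shift_apply {d : ℕ} (v x : Fin d → ℤ) : shift v x = x + v := rfl

lemma par_shift {d : ℕ} (v w : Fin d → ℤ) :
    (par (shift v w) ↔ par v) ↔ (par w ↔ par (0 : Fin d → ℤ)) := by
  simp only [par, shift_apply, Pi.add_apply, sum_add_distrib, Int.even_add, Pi.zero_apply,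
    sum_const_zero, Even.zero]
  tauto

lemma lat_iso {d : ℕ} (hd1 : 1 ≤ d) (hd : d ≤ 2) (n : ℕ) : ∃ W : Finset (Fin d → ℤ), n ≤ W.card ∧
    ((supp (lat d) W \ W).card : ℝ) ≤ 8 * Real.sqrt W.card := by
  set W : Finset (Fin d → ℤ) := Fintype.piFinset fun _ => Icc (1 : ℤ) (n + 1) with hW
  set W' : Finset (Fin d → ℤ) := Fintype.piFinset fun _ => Icc (0 : ℤ) (n + 2) with hW'
  have c1 : W.card = (n + 1) ^ d := by
    simp only [hW, Fintype.card_piFinset, Int.card_Icc, prod_const, card_univ, Fintype.card_fin]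
    congr 1
    omega
  have c2 : W'.card = (n + 3) ^ d := by
    simp only [hW', Fintype.card_piFinset, Int.card_Icc, prod_const, card_univ, Fintype.card_fin]
    congr 1
  have h1 : supp (lat d) W ⊆ W' := by
    intro x hx
    simp only [mem_supp, hW, hW', Fintype.mem_piFinset, mem_Icc] at hx ⊢
    intro i
    rcases hx with hx | ⟨u, hu, hadj⟩
    · have := hx i
      omega
    · have := hu i
      have := abs_le.mp (lat_adj_abs_le hadj i)
      omega
  have h2 : (supp (lat d) W \ W).card + W.card ≤ W'.card := by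
    rw [card_sdiff_add_card, union_eq_left.mpr (subset_supp W)]
    exact card_le_card h1
  rw [c1, c2] at h2
  refine ⟨W, ?_, ?_⟩
  · rw [c1]
    calc n ≤ (n + 1) ^ 1 := by simp
      _ ≤ (n + 1) ^ d := Nat.pow_le_pow_right (by omega) hd1
  · rw [c1]
    have h3 : ((supp (lat d) W \ W).card : ℝ) + ((n : ℝ) + 1) ^ d ≤ ((n : ℝ) + 3) ^ d := by
      exact_mod_cast h2
    have hn : (0 : ℝ) ≤ n := Nat.cast_nonneg n
    push_cast
    generalize ((supp (lat d) W \ W).card : ℝ) = b at h3
    obtain rfl | rfl : d = 1 ∨ d = 2 := by omega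
    · have : 1 ≤ Real.sqrt (((n : ℝ) + 1) ^ 1) := Real.one_le_sqrt.mpr (by linarith)
      linarith
    · rw [Real.sqrt_sq (by linarith)]
      nlinarith

open Classical in
lemma drawish_of_draw {d : ℕ} {X : Set (Fin d → ℤ)} (hX : X ∈ drawEvent d)
    {U : Finset (Fin d → ℤ)} (hU : 0 ∈ U) :
    Drawish (lat d) par U 0 ((supp (lat d) U).filter (· ∈ X)) := by
  obtain ⟨h0, h1, h2⟩ := hX
  set D := ((supp (lat d) U).filter (· ∈ X)).erase 0 with hD
  have hopen : ∀ P, ∀ x ∈ reg (lat d) U P \ D, x ∉ X := by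
    intro P x hx hxX
    obtain ⟨hx1, hx2⟩ := mem_sdiff.mp hx
    exact hx2 (mem_erase.mpr ⟨fun e => h0 (e ▸ hxX),
      mem_filter.mpr ⟨reg_subset_supp U P hx1, hxX⟩⟩)
  have hGH : ∀ P, ∀ a ∈ reg (lat d) U P \ D, ∀ b ∈ reg (lat d) U P \ D,
      (lat d).Adj a b → (openGraph d X).Adj a b :=
    fun P a ha b hb h => openGraph_adj.mpr ⟨h, hopen P a ha, hopen P b hb⟩
  have hHG : ∀ a b, (openGraph d X).Adj a b → (lat d).Adj a b :=
    fun a b h => (openGraph_adj.mp h).1
  have hcl : ∀ P : (Fin d → ℤ) → Prop, (∀ a b, (lat d).Adj a b → (P a ↔ ¬ P b)) →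
      ∀ u ∈ reg (lat d) U P \ D, P u → ∀ w, (openGraph d X).Adj u w → w ∈ reg (lat d) U P \ D :=
    fun P hP u hu hPu w h => mem_sdiff.mpr ⟨reg_closed hP (mem_sdiff.mp hu).1 hPu (hHG _ _ h),
      fun hw => (openGraph_adj.mp h).2.2 (mem_filter.mp (mem_of_mem_erase hw)).2⟩
  constructor
  · by_contra he
    exact h2 (secondWins_of_not_ess (same_proper par_proper 0) (hGH _) hHG
      (hcl _ (same_proper par_proper 0))
      (mem_sdiff.mpr ⟨subset_reg U _ hU, notMem_erase _ _⟩) Iff.rfl he)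
  · intro he
    exact h1 (firstWins_of_ess (opp_proper par_proper 0) (hGH _) hHG
      (hcl _ (opp_proper par_proper 0)) (by simp) he)

theorem low (d : ℕ) (hd : d ≤ 2) (p : unitInterval) (hp : 0 < p) :
    setBer((Set.univ : Set (Fin d → ℤ)), p) (drawEvent d) = 0 := by
  classical
  rcases Nat.eq_zero_or_pos d with rfl | hd1
  · have : drawEvent 0 = ∅ := by
      refine Set.eq_empty_of_forall_notMem fun X hX => hX.2.2 ⟨fun P => P.1, ?_, fun σ _ => ?_⟩
      · rintro P ⟨y, hy, -⟩
        simp [openGraph] at hy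
      · refine ⟨0, Even.zero, ?_, by simp⟩
        rintro ⟨y, hy, -⟩
        simp [openGraph] at hy
    simp [this]
  rcases eq_or_lt_of_le p.2.2 with h1 | h1
  · refine le_antisymm ((setBer_le_Ex p {0} (fun C => 0 ∉ C) _ fun X hX => ?_).trans ?_) bot_le
    · simpa using hX.1
    · rw [← insert_empty_eq, Ex_insert (notMem_empty _), h1]
      simp [Ex_const]
  refine le_antisymm (ENNReal.le_of_forall_pos_le_add fun δ hδ _ => ?_) bot_le
  obtain ⟨U, hU, h⟩ := theta_small (G := lat d) (χ := par) (o := 0) par_proper shift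
    (fun v => by simp [shift_apply]) par_shift (p := p) hp h1 (lat_iso hd1 hd) (δ := δ) hδ
  refine (setBer_le_Ex p (supp (lat d) U) (Drawish (lat d) par U 0) _
    fun X hX => drawish_of_draw hX hU).trans ?_
  rw [zero_add, ← ENNReal.ofReal_coe_nnreal]
  exact ENNReal.ofReal_le_ofReal h.le

end Pool.Agent.P.MP_985e29_pr
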